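import Mathlib

/-!
Definitions: trees of height omega one, names for subsets of a tree, forcing a new cofinal branch,
and the Laver-like Namba forcing.
-/

open Cardinal Ordinal

namespace Pool.Agent.LibNamba

section Trees

variable {T : Type} [PartialOrder T] [WellFoundedLT T]

/-- The height of a node of a tree: the rank of the node in the well-founded order. -/
noncomputable def height (x : T) : Ordinal.{0} :=
  IsWellFounded.rank (α := T) (· < ·) x

variable (T) in
/-- `T` is a tree of height `ω₁` with countable levels: the predecessors of each node form a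
chain (well-ordered, since `<` is well-founded), every level is countable, and the nonempty levels
are exactly those of index below `ω₁`. -/
structure IsOmegaOneTree : Prop where
  pred_chain : ∀ x y z : T, y ≤ x → z ≤ x → y ≤ z ∨ z ≤ y
  level_countable : ∀ α : Ordinal.{0}, {x : T | height x = α}.Countable
  level_nonempty : ∀ α : Ordinal.{0}, (∃ x : T, height x = α) ↔ α < ω_ 1

/-- A cofinal branch: a downward closed chain that meets every level below `ω₁`. -/
structure IsCofinalBranch (b : Set T) : Prop where
  chain : ∀ x ∈ b, ∀ y ∈ b, x ≤ y ∨ y ≤ x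
  lower : ∀ x ∈ b, ∀ y, y ≤ x → y ∈ b
  cofinal : ∀ α : Ordinal.{0}, α < ω_ 1 → ∃ x ∈ b, height x = α

end Trees

section Forcing

variable {P T : Type} [Preorder P]

/-- A name `τ` for a subset of `T` is a set of pairs `(x, u)`; its value for a generic filter `G`
is `{x | ∃ u ∈ G, (x, u) ∈ τ}`. The condition `p` forces `x ∈ τ` iff the conditions lying below
some `u` with `(x, u) ∈ τ` are dense below `p`. -/
def ForcesMem (p : P) (x : T) (τ : Set (T × P)) : Prop :=
  ∀ q ≤ p, ∃ r ≤ q, ∃ u : P, (x, u) ∈ τ ∧ r ≤ u

/-- The condition `p` forces `x ∉ τ` iff no extension of `p` forces `x ∈ τ`. -/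
def ForcesNotMem (p : P) (x : T) (τ : Set (T × P)) : Prop :=
  ∀ q ≤ p, ¬ ForcesMem q x τ

/-- The condition `p` forces that `τ` is a cofinal branch of `T` (a downward closed chain meeting
every level) that does not belong to the ground model (it differs from every ground-model subset
of `T`). -/
structure ForcesNewCofinalBranch [PartialOrder T] [WellFoundedLT T] (p : P) (τ : Set (T × P)) :
    Prop where
  chain : ∀ q ≤ p, ∀ x y, ForcesMem q x τ → ForcesMem q y τ → x ≤ y ∨ y ≤ x
  lower : ∀ q ≤ p, ∀ x y, ForcesMem q x τ → y ≤ x → ForcesMem q y τ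
  cofinal : ∀ q ≤ p, ∀ α : Ordinal.{0}, α < ω_ 1 → ∃ r ≤ q, ∃ x, height x = α ∧ ForcesMem r x τ
  new : ∀ b : Set T, ∀ q ≤ p, ∃ r ≤ q, ∃ x,
    (x ∈ b ∧ ForcesNotMem r x τ) ∨ (x ∉ b ∧ ForcesMem r x τ)

variable (P T) in
/-- Forcing with `P` adds a cofinal branch to `T`: some condition forces some name to be a cofinal
branch of `T` that is not in the ground model. -/
def AddsCofinalBranch [PartialOrder T] [WellFoundedLT T] : Prop :=
  ∃ (p : P) (τ : Set (T × P)), ForcesNewCofinalBranch p τ

end Forcing

section Namba

/-- The set of ordinals below `ω₂`, as a type. -/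
abbrev OmegaTwo : Type := (ω_ 2 : Ordinal.{0}).ToType

/-- `p` is a subtree of the finite sequences of ordinals below `ω₂` with stem `s`, in which every
node extending `s` has `ℵ₂` many immediate successors. -/
structure IsLaverNamba (p : Set (List OmegaTwo)) (s : List OmegaTwo) : Prop where
  stem_mem : s ∈ p
  downward : ∀ t ∈ p, ∀ u, u <+: t → u ∈ p
  comparable : ∀ t ∈ p, t <+: s ∨ s <+: t
  splitting : ∀ t ∈ p, s <+: t → #{k : OmegaTwo | t ++ [k] ∈ p} = ℵ_ 2

/-- The Laver-like Namba forcing, ordered by inclusion. -/
def LaverNamba : Type := {p : Set (List OmegaTwo) // ∃ s, IsLaverNamba p s}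

instance : PartialOrder LaverNamba :=
  inferInstanceAs (PartialOrder {p : Set (List OmegaTwo) // ∃ s, IsLaverNamba p s})

end Namba

end Pool.Agent.LibNamba
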