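import Mathlib
import Pool.Agent.LibNamba.Defs

/-!
Basic facts: small sets of successors, conditions, restriction, amalgamation, the hereditary
subtree lemma; basic facts on trees of height omega one.
-/

open Cardinal Ordinal

namespace Pool.Agent.LibNamba

section SmallSets

variable {K : Type}

/-- A set is small if its cardinality is at most `ℵ₁`. -/
def Sm (A : Set K) : Prop := #A ≤ ℵ_ 1

lemma Sm.mono {A B : Set K} (h : A ⊆ B) (hB : Sm B) : Sm A :=
  (mk_le_mk_of_subset h).trans hB

lemma Sm.iUnion {ι : Type} (hι : #ι ≤ ℵ_ 1) {f : ι → Set K} (h : ∀ i, Sm (f i)) :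
    Sm (⋃ i, f i) := by
  unfold Sm
  refine (Cardinal.mk_iUnion_le_sum_mk).trans ?_
  refine (Cardinal.sum_le_sum _ (fun _ => ℵ_ 1) h).trans ?_
  rw [Cardinal.sum_const]
  simp only [Cardinal.lift_id]
  calc #ι * ℵ_ 1 ≤ ℵ_ 1 * ℵ_ 1 := by gcongr
    _ = ℵ_ 1 := Cardinal.mul_eq_self (aleph0_le_aleph 1)

lemma Sm.union {A B : Set K} (hA : Sm A) (hB : Sm B) : Sm (A ∪ B) := by
  unfold Sm
  refine (Cardinal.mk_union_le A B).trans ?_
  calc #A + #B ≤ ℵ_ 1 + ℵ_ 1 := add_le_add hA hB
    _ = ℵ_ 1 := Cardinal.add_eq_self (aleph0_le_aleph 1)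

lemma sm_empty : Sm (∅ : Set K) := by
  unfold Sm
  simp

lemma sm_singleton (a : K) : Sm ({a} : Set K) := by
  unfold Sm
  rw [Cardinal.mk_singleton]
  exact (one_le_aleph0).trans (aleph0_le_aleph 1)

lemma exists_notMem_of_not_sm {A B : Set K} (hA : ¬ Sm A) (hB : Sm B) : ∃ a ∈ A, a ∉ B := by
  by_contra h
  push Not at h
  exact hA (hB.mono h)

lemma not_sm_diff {A B : Set K} (hA : ¬ Sm A) (hB : Sm B) : ¬ Sm (A \ B) := by
  intro h
  apply hA
  refine (h.union hB).mono ?_
  intro a ha
  by_cases hab : a ∈ B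
  · exact Or.inr hab
  · exact Or.inl ⟨ha, hab⟩

lemma nonempty_of_not_sm {A : Set K} (hA : ¬ Sm A) : A.Nonempty := by
  obtain ⟨a, ha, -⟩ := exists_notMem_of_not_sm hA sm_empty
  exact ⟨a, ha⟩

end SmallSets

section Cond

variable {K : Type}

/-- Internal version of the conditions. -/
structure IsCond (p : Set (List K)) (s : List K) : Prop where
  mem : s ∈ p
  down : ∀ t ∈ p, ∀ u, u <+: t → u ∈ p
  comp : ∀ t ∈ p, t <+: s ∨ s <+: t
  big : ∀ t ∈ p, s <+: t → ¬ Sm {k | t ++ [k] ∈ p}

/-- The part of `p` comparable with `t`. -/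
def restr (p : Set (List K)) (t : List K) : Set (List K) := {u | u ∈ p ∧ (u <+: t ∨ t <+: u)}

lemma restr_subset (p : Set (List K)) (t : List K) : restr p t ⊆ p := fun _ h => h.1

lemma IsCond.restr {p : Set (List K)} {s t : List K} (h : IsCond p s) (ht : t ∈ p)
    (hst : s <+: t) : IsCond (restr p t) t where
  mem := ⟨ht, Or.inl (List.prefix_refl t)⟩
  down := by
    rintro u ⟨hu, hut⟩ v hvu
    refine ⟨h.down u hu v hvu, ?_⟩
    rcases hut with hut | hut
    · exact Or.inl (hvu.trans hut)
    · exact List.prefix_or_prefix_of_prefix hvu hut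
  comp := fun u hu => hu.2
  big := by
    rintro u ⟨hu, -⟩ htu
    have h1 := h.big u hu (hst.trans htu)
    intro h2
    apply h1
    refine h2.mono ?_
    intro k hk
    exact ⟨hk, Or.inr (htu.trans (List.prefix_append _ _))⟩

lemma not_sm_succ {p : Set (List K)} {s : List K} (h : IsCond p s) : ¬ Sm {k | s ++ [k] ∈ p} :=
  h.big s h.mem (List.prefix_refl s)

/-- An extension has a longer stem. -/
lemma stem_prefix {p q : Set (List K)} {s t : List K} (hp : IsCond p s) (hq : IsCond q t)
    (hqp : q ⊆ p) : s <+: t := by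
  rcases hp.comp t (hqp hq.mem) with h | h
  · by_cases hl : t.length = s.length
    · rw [h.eq_of_length hl]
    · exfalso
      obtain ⟨u, rfl⟩ := h
      cases u with
      | nil => simp at hl
      | cons k u =>
        obtain ⟨i, hi, hik⟩ := exists_notMem_of_not_sm (not_sm_succ hq) (sm_singleton k)
        apply hik
        have := hp.comp _ (hqp hi)
        rcases this with h1 | h1
        · rw [List.prefix_append_right_inj] at h1
          have := (List.cons_prefix_cons.1 h1).1
          simpa using this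
        · rw [List.prefix_append_right_inj] at h1
          have := (List.cons_prefix_cons.1 h1).1
          simp [this]
  · exact h

/-- The amalgamation of conditions `r i` with stems `s ++ [i]`, `i ∈ A`. -/
def amalg (s : List K) (A : Set K) (r : K → Set (List K)) : Set (List K) :=
  {u | u <+: s} ∪ {u | ∃ i ∈ A, u ∈ r i}

lemma amalg_subset {p : Set (List K)} {s : List K} (hp : IsCond p s) {A : Set K}
    {r : K → Set (List K)} (hr : ∀ i ∈ A, r i ⊆ p) : amalg s A r ⊆ p := by
  rintro u (hu | ⟨i, hi, hu⟩)
  · exact hp.down s hp.mem u hu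
  · exact hr i hi hu

lemma amalg_cond {s : List K} {A : Set K} (hA : ¬ Sm A)
    {r : K → Set (List K)} (hr : ∀ i ∈ A, IsCond (r i) (s ++ [i])) : IsCond (amalg s A r) s where
  mem := Or.inl (List.prefix_refl s)
  down := by
    rintro u (hu | ⟨i, hi, hu⟩) v hv
    · exact Or.inl (hv.trans hu)
    · exact Or.inr ⟨i, hi, (hr i hi).down u hu v hv⟩
  comp := by
    rintro u (hu | ⟨i, hi, hu⟩)
    · exact Or.inl hu
    · rcases (hr i hi).comp u hu with h | h
      · rcases List.prefix_concat_iff.1 h with h | h
        · right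
          rw [h]
          exact List.prefix_append _ _
        · exact Or.inl h
      · exact Or.inr ((List.prefix_append _ _).trans h)
  big := by
    rintro u hu hsu h
    by_cases hl : u = s
    · subst hl
      apply hA
      refine h.mono ?_
      intro i hi
      exact Or.inr ⟨i, hi, (hr i hi).mem⟩
    · rcases hu with hu | ⟨i, hi, hu⟩
      · exact hl (hu.eq_of_length (le_antisymm hu.length_le hsu.length_le))
      · rcases (hr i hi).comp u hu with h1 | h1
        · rcases List.prefix_concat_iff.1 h1 with h2 | h2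
          · apply (hr i hi).big u hu (by rw [h2])
            refine h.mono ?_
            intro k hk
            exact Or.inr ⟨i, hi, hk⟩
          · exact hl (h2.eq_of_length (le_antisymm h2.length_le hsu.length_le))
        · apply (hr i hi).big u hu h1
          refine h.mono ?_
          intro k hk
          exact Or.inr ⟨i, hi, hk⟩

/-- Every extension of the amalgamation has an extension below some `r i`. -/
lemma amalg_ext {s : List K} {A : Set K} (hA : ¬ Sm A)
    {r : K → Set (List K)} (hr : ∀ i ∈ A, IsCond (r i) (s ++ [i]))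
    {q : Set (List K)} {t : List K} (hq : IsCond q t) (hqs : q ⊆ amalg s A r) :
    ∃ i ∈ A, ∃ (q' : Set (List K)) (t' : List K), IsCond q' t' ∧ q' ⊆ q ∧ q' ⊆ r i := by
  have hst : s <+: t := stem_prefix (amalg_cond hA hr) hq hqs
  obtain ⟨k, hk⟩ := nonempty_of_not_sm (not_sm_succ hq)
  have hk : t ++ [k] ∈ q := hk
  -- a node of `q` strictly longer than `s`
  have hlen : s.length < (t ++ [k]).length := by
    have := hst.length_le
    simp
    omega
  have key : ∀ u ∈ amalg s A r, s.length < u.length → ∃ i ∈ A, u ∈ r i ∧ s ++ [i] <+: u := by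
    rintro u (hu | ⟨i, hi, hu⟩) hul
    · exact absurd hu.length_le (by omega)
    · refine ⟨i, hi, hu, ?_⟩
      rcases (hr i hi).comp u hu with h1 | h1
      · rcases List.prefix_concat_iff.1 h1 with h2 | h2
        · rw [h2]
        · exact absurd h2.length_le (by omega)
      · exact h1
  obtain ⟨i, hi, hui, hpi⟩ := key _ (hqs hk) hlen
  refine ⟨i, hi, restr q (t ++ [k]), t ++ [k], hq.restr hk (List.prefix_append _ _),
    restr_subset _ _, ?_⟩
  rintro v ⟨hv, hvc⟩
  rcases hvc with hvc | hvc
  · exact (hr i hi).down _ hui v hvc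
  · have hvl : s.length < v.length := lt_of_lt_of_le hlen hvc.length_le
    obtain ⟨j, hj, hvj, hpj⟩ := key v (hqs hv) hvl
    have h1 : s ++ [i] <+: v := hpi.trans hvc
    have h2 : s ++ [i] = s ++ [j] := by
      rcases List.prefix_or_prefix_of_prefix h1 hpj with h3 | h3
      · exact h3.eq_of_length (by simp)
      · exact (h3.eq_of_length (by simp)).symm
    have : i = j := by simpa using h2
    rw [this]
    exact hvj

/-- The hereditary subtree. -/
def hered (p : Set (List K)) (s : List K) (N : List K → Prop) : Set (List K) :=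
  {u | u ∈ p ∧ ∀ v, s <+: v → v <+: u → N v}

lemma hered_subset (p : Set (List K)) (s : List K) (N : List K → Prop) : hered p s N ⊆ p :=
  fun _ h => h.1

lemma hered_cond {p : Set (List K)} {s : List K} (hp : IsCond p s) (N : List K → Prop)
    (hs : N s) (hN : ∀ t ∈ p, s <+: t → N t → ¬ Sm {k | t ++ [k] ∈ p ∧ N (t ++ [k])}) :
    IsCond (hered p s N) s where
  mem := by
    refine ⟨hp.mem, ?_⟩
    intro v hv hv'
    have : v = s := (hv'.eq_of_length (le_antisymm hv'.length_le hv.length_le))
    rw [this]; exact hs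
  down := by
    rintro u ⟨hu, huN⟩ v hv
    exact ⟨hp.down u hu v hv, fun w hw hw' => huN w hw (hw'.trans hv)⟩
  comp := fun u hu => hp.comp u hu.1
  big := by
    rintro u ⟨hu, huN⟩ hsu h
    apply hN u hu hsu (huN u hsu (List.prefix_refl u))
    refine h.mono ?_
    rintro k ⟨hk, hkN⟩
    refine ⟨hk, ?_⟩
    intro v hv hv'
    rcases List.prefix_concat_iff.1 hv' with h1 | h1
    · rw [h1]; exact hkN
    · exact huN v hv h1

end Cond

section Trees

variable {T : Type} [PartialOrder T] [WellFoundedLT T]

lemma height_lt_of_lt {x y : T} (h : x < y) : height x < height y :=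
  WellFoundedLT.rank_strictMono h

lemma height_le_of_le {x y : T} (h : x ≤ y) : height x ≤ height y :=
  WellFoundedLT.rank_strictMono.monotone h

lemma exists_le_height_eq (x : T) (α : Ordinal.{0}) (h : α ≤ height x) :
    ∃ y ≤ x, height y = α := by
  induction x using WellFoundedLT.induction with
  | ind x ih =>
    rcases h.eq_or_lt with h | h
    · exact ⟨x, le_refl x, h.symm⟩
    · unfold height at h
      rw [IsWellFounded.rank_eq, Ordinal.lt_iSup_iff] at h
      obtain ⟨⟨y, hy⟩, h⟩ := h
      rw [Order.lt_succ_iff] at h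
      obtain ⟨z, hz, hz'⟩ := ih y hy h
      exact ⟨z, hz.trans hy.le, hz'⟩

lemma eq_of_comparable {x y : T} (h : x ≤ y ∨ y ≤ x) (hh : height x = height y) : x = y := by
  rcases h with h | h
  · rcases h.eq_or_lt with h | h
    · exact h
    · exact absurd (height_lt_of_lt h) (by rw [hh]; exact lt_irrefl _)
  · rcases h.eq_or_lt with h | h
    · exact h.symm
    · exact absurd (height_lt_of_lt h) (by rw [hh]; exact lt_irrefl _)

lemma IsOmegaOneTree.height_lt (hT : IsOmegaOneTree T) (x : T) : height x < ω_ 1 :=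
  (hT.level_nonempty _).1 ⟨x, rfl⟩

lemma IsOmegaOneTree.mk_le (hT : IsOmegaOneTree T) : #T ≤ ℵ_ 1 := by
  classical
  -- T is the union of its levels
  let lev : (ω_ 1 : Ordinal.{0}).ToType → Set T := fun i =>
    {x | height x = (Ordinal.ToType.mk.symm i : Ordinal.{0})}
  have hU : (⋃ i, lev i) = Set.univ := by
    rw [Set.eq_univ_iff_forall]
    intro x
    rw [Set.mem_iUnion]
    refine ⟨Ordinal.ToType.mk ⟨height x, hT.height_lt x⟩, ?_⟩
    simp [lev]
  have h1 : #(⋃ i, lev i) ≤ ℵ_ 1 := by
    refine (Cardinal.mk_iUnion_le_sum_mk).trans ?_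
    refine (Cardinal.sum_le_sum _ (fun _ => ℵ_ 1) ?_).trans ?_
    · intro i
      exact (Cardinal.le_aleph0_iff_set_countable.2 (hT.level_countable _)).trans
        (aleph0_le_aleph 1)
    · rw [Cardinal.sum_const]
      simp only [Cardinal.lift_id]
      have : #((ω_ 1 : Ordinal.{0}).ToType) = ℵ_ 1 := by
        rw [Cardinal.mk_toType]
        simp
      rw [this]
      exact (Cardinal.mul_eq_self (aleph0_le_aleph 1)).le
  rw [hU, Cardinal.mk_univ] at h1
  exact h1

end Trees

end Pool.Agent.LibNamba
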