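import Mathlib
import Pool.Agent.LibNamba.Defs
import Pool.Agent.LibNamba.Basic

/-!
The main argument: pure decision, pure splitting, uniformisation of the splitting by one colour
function, and the final contradiction.
-/

open Cardinal Ordinal

namespace Pool.Agent.LibNamba

variable {K T : Type} [PartialOrder T] [WellFoundedLT T]

/-- `F p x` behaves like `p` forces `x ∈ τ` for a name `τ` of a new cofinal branch, for the
conditions below `p₀`. -/
structure NewBranch (p₀ : Set (List K)) (F : Set (List K) → T → Prop) : Prop where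
  mono : ∀ p q s t x, IsCond p s → IsCond q t → q ⊆ p → p ⊆ p₀ → F p x → F q x
  dense : ∀ p s x, IsCond p s → p ⊆ p₀ →
    (∀ q t, IsCond q t → q ⊆ p → ∃ r u, IsCond r u ∧ r ⊆ q ∧ F r x) → F p x
  chain : ∀ p s x y, IsCond p s → p ⊆ p₀ → F p x → F p y → x ≤ y ∨ y ≤ x
  lower : ∀ p s x y, IsCond p s → p ⊆ p₀ → F p x → y ≤ x → F p y
  cofinal : ∀ p s (α : Ordinal.{0}), IsCond p s → p ⊆ p₀ → α < ω_ 1 →
    ∃ q t x, IsCond q t ∧ q ⊆ p ∧ height x = α ∧ F q x
  new : ∀ b : Set T, IsCofinalBranch b → ∀ p s, IsCond p s → p ⊆ p₀ →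
    ∃ q t x, IsCond q t ∧ q ⊆ p ∧ x ∉ b ∧ F q x

variable {p₀ : Set (List K)} {F : Set (List K) → T → Prop}

/-- If all `r i` force `x`, so does the amalgamation. -/
lemma NewBranch.amalg_forces (h : NewBranch p₀ F) {s : List K} {A : Set K} (hA : ¬ Sm A)
    {r : K → Set (List K)} (hr : ∀ i ∈ A, IsCond (r i) (s ++ [i])) {x : T}
    (hsub : amalg s A r ⊆ p₀) (hF : ∀ i ∈ A, F (r i) x) : F (amalg s A r) x := by
  apply h.dense _ s x (amalg_cond hA hr) hsub
  intro q t hq hqs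
  obtain ⟨i, hi, q', t', hq', hq'q, hq'r⟩ := amalg_ext hA hr hq hqs
  refine ⟨q', t', hq', hq'q, ?_⟩
  refine h.mono (r i) q' (s ++ [i]) t' x (hr i hi) hq' hq'r ?_ (hF i hi)
  intro u hu
  exact hsub (Or.inr ⟨i, hi, hu⟩)

/-- Pigeonhole: uniformise the decisions of the successors. -/
lemma NewBranch.pigeon (h : NewBranch p₀ F) (hT : #T ≤ ℵ_ 1) {p : Set (List K)} {s : List K}
    (hp : IsCond p s) (hpp : p ⊆ p₀) (R : T → Prop)
    (hbig : ¬ Sm {i | ∃ (r : Set (List K)) (x : T), IsCond r (s ++ [i]) ∧ r ⊆ p ∧ R x ∧ F r x}) :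
    ∃ (r : Set (List K)) (x : T), IsCond r s ∧ r ⊆ p ∧ R x ∧ F r x := by
  classical
  set A : T → Set K := fun x => {i | ∃ (r : Set (List K)), IsCond r (s ++ [i]) ∧ r ⊆ p ∧ R x ∧ F r x}
    with hAdef
  have h1 : ∃ x, ¬ Sm (A x) := by
    by_contra hcon
    push Not at hcon
    apply hbig
    refine (Sm.iUnion hT hcon).mono ?_
    rintro i ⟨r, x, hr⟩
    exact Set.mem_iUnion.2 ⟨x, r, hr⟩
  obtain ⟨x, hx⟩ := h1
  have hch : ∀ i, ∃ r : Set (List K), i ∈ A x → IsCond r (s ++ [i]) ∧ r ⊆ p ∧ R x ∧ F r x := by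
    intro i
    by_cases hi : i ∈ A x
    · obtain ⟨r, hr⟩ := hi
      exact ⟨r, fun _ => hr⟩
    · exact ⟨∅, fun h => absurd h hi⟩
  choose r hr using hch
  obtain ⟨i₀, hi₀⟩ := nonempty_of_not_sm hx
  have hsub : amalg s (A x) r ⊆ p := amalg_subset hp (fun i hi => (hr i hi).2.1)
  refine ⟨amalg s (A x) r, x, amalg_cond hx (fun i hi => (hr i hi).1), hsub,
    (hr i₀ hi₀).2.2.1, ?_⟩
  exact h.amalg_forces hx (fun i hi => (hr i hi).1) (hsub.trans hpp) (fun i hi => (hr i hi).2.2.2)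

/-- If a node with property `R` forced purely cannot be found at `s`, then hereditarily so. -/
lemma NewBranch.hered_fail (h : NewBranch p₀ F) (hT : #T ≤ ℵ_ 1) {p : Set (List K)} {s : List K}
    (hp : IsCond p s) (hpp : p ⊆ p₀) (R : T → Prop)
    (hs : ¬ ∃ (r : Set (List K)) (x : T), IsCond r s ∧ r ⊆ p ∧ R x ∧ F r x) :
    ∃ q : Set (List K), IsCond q s ∧ q ⊆ p ∧
      ¬ ∃ (r : Set (List K)) (t : List K) (x : T), IsCond r t ∧ r ⊆ q ∧ R x ∧ F r x := by
  set N : List K → Prop := fun t =>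
    ¬ ∃ (r : Set (List K)) (x : T), IsCond r t ∧ r ⊆ p ∧ R x ∧ F r x with hN
  have hcond : IsCond (hered p s N) s := by
    apply hered_cond hp N hs
    intro t ht hst hNt hsm
    apply hNt
    have hpt := hp.restr ht hst
    have hbig : ¬ Sm {i | ∃ (r : Set (List K)) (x : T), IsCond r (t ++ [i]) ∧ r ⊆ p ∧ R x ∧ F r x} := by
      intro hsm2
      apply hp.big t ht hst
      refine (hsm.union hsm2).mono ?_
      intro k hk
      by_cases hNk : N (t ++ [k])
      · exact Or.inl ⟨hk, hNk⟩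
      · right
        simp only [hN, not_not] at hNk
        exact hNk
    have hbig2 : ¬ Sm {i | ∃ (r : Set (List K)) (x : T),
        IsCond r (t ++ [i]) ∧ r ⊆ restr p t ∧ R x ∧ F r x} := by
      intro hsm2
      apply hbig
      refine hsm2.mono ?_
      rintro i ⟨r, x, hr, hrp, hR, hF⟩
      refine ⟨r, x, hr, ?_, hR, hF⟩
      intro u hu
      refine ⟨hrp hu, ?_⟩
      rcases hr.comp u hu with h1 | h1
      · exact List.prefix_or_prefix_of_prefix h1 (List.prefix_append _ _)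
      · exact Or.inr ((List.prefix_append _ _).trans h1)
    obtain ⟨r, x, hr, hrp, hR, hF⟩ := h.pigeon hT hpt ((restr_subset _ _).trans hpp) R hbig2
    exact ⟨r, x, hr, hrp.trans (restr_subset _ _), hR, hF⟩
  refine ⟨hered p s N, hcond, hered_subset _ _ _, ?_⟩
  rintro ⟨r, t, x, hr, hrq, hR, hF⟩
  have hst := stem_prefix hcond hr hrq
  have ht := hrq hr.mem
  exact ht.2 t hst (List.prefix_refl t) ⟨r, x, hr, hrq.trans (hered_subset _ _ _), hR, hF⟩

/-- Pure decision of the node of the branch at level `α`. -/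
lemma NewBranch.decide (h : NewBranch p₀ F) (hT : #T ≤ ℵ_ 1) {p : Set (List K)} {s : List K}
    (hp : IsCond p s) (hpp : p ⊆ p₀) {α : Ordinal.{0}} (hα : α < ω_ 1) :
    ∃ (r : Set (List K)) (x : T), IsCond r s ∧ r ⊆ p ∧ height x = α ∧ F r x := by
  by_contra hcon
  obtain ⟨q, hq, hqp, hbad⟩ := h.hered_fail hT hp hpp (fun x => height x = α) hcon
  obtain ⟨r, t, x, hr, hrq, hx, hF⟩ := h.cofinal q s α hq (hqp.trans hpp) hα
  exact hbad ⟨r, t, x, hr, hrq, hx, hF⟩

/-- Pure splitting: two pure extensions force different nodes of the same level. -/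
lemma NewBranch.split (h : NewBranch p₀ F) (hT : #T ≤ ℵ_ 1)
    {p : Set (List K)} {s : List K} (hp : IsCond p s) (hpp : p ⊆ p₀) :
    ∃ (q : Bool → Set (List K)) (x : Bool → T), (∀ j, IsCond (q j) s ∧ q j ⊆ p ∧ F (q j) (x j)) ∧
      x false ≠ x true ∧ height (x false) = height (x true) := by
  by_contra hcon
  have huniq : ∀ (q q' : Set (List K)) (x x' : T), IsCond q s → q ⊆ p → F q x → IsCond q' s →
      q' ⊆ p → F q' x' → height x = height x' → x = x' := by
    intro q q' x x' hq hqp hF hq' hq'p hF' hh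
    by_contra hne
    apply hcon
    refine ⟨fun j => bif j then q' else q, fun j => bif j then x' else x, ?_, hne, hh⟩
    intro j
    cases j
    · exact ⟨hq, hqp, hF⟩
    · exact ⟨hq', hq'p, hF'⟩
  set b : Set T := {x | ∃ q : Set (List K), IsCond q s ∧ q ⊆ p ∧ F q x} with hb
  have hlow : ∀ x ∈ b, ∀ y, y ≤ x → y ∈ b := by
    rintro x ⟨q, hq, hqp, hF⟩ y hy
    exact ⟨q, hq, hqp, h.lower q s x y hq (hqp.trans hpp) hF hy⟩
  have hbr : IsCofinalBranch b := by
    refine ⟨?_, hlow, ?_⟩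
    · have aux : ∀ x ∈ b, ∀ y ∈ b, height x ≤ height y → x ≤ y := by
        rintro x ⟨q, hq, hqp, hF⟩ y ⟨q', hq', hq'p, hF'⟩ hle
        obtain ⟨y', hy', hh⟩ := exists_le_height_eq y (height x) hle
        have := huniq q q' x y' hq hqp hF hq' hq'p (h.lower q' s y y' hq' (hq'p.trans hpp) hF' hy')
          hh.symm
        rw [this]
        exact hy'
      intro x hx y hy
      rcases le_total (height x) (height y) with hle | hle
      · exact Or.inl (aux x hx y hy hle)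
      · exact Or.inr (aux y hy x hx hle)
    · intro α hα
      obtain ⟨r, x, hr, hrp, hx, hF⟩ := h.decide hT hp hpp hα
      exact ⟨x, ⟨r, hr, hrp, hF⟩, hx⟩
  have hs : ¬ ∃ (r : Set (List K)) (x : T), IsCond r s ∧ r ⊆ p ∧ x ∉ b ∧ F r x := by
    rintro ⟨r, x, hr, hrp, hxb, hF⟩
    exact hxb ⟨r, hr, hrp, hF⟩
  obtain ⟨q, hq, hqp, hbad⟩ := h.hered_fail hT hp hpp (fun x => x ∉ b) hs
  obtain ⟨r, t, x, hr, hrq, hx, hF⟩ := h.new b hbr q s hq (hqp.trans hpp)
  exact hbad ⟨r, t, x, hr, hrq, hx, hF⟩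

/-! ### Colour functions and ranks -/

/-- A colour function assigns to each finite binary sequence a pair of nodes. -/
abbrev Col (T : Type) := List Bool → Bool → T

/-- The colour function seen after one step. -/
def shift (j : Bool) (G : Col T) : Col T := fun σ => G (j :: σ)

/-- The pair at the root is a pair of distinct nodes of the same height. -/
def Valid (x : Bool → T) : Prop := x false ≠ x true ∧ height (x false) = height (x true)

/-- Positions. -/
abbrev Pos (K T : Type) := Col T × List K × Set (List K)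

/-- The good successors `i` (in direction `j`) with respect to a set `X` of bad positions. -/
def succs (F : Set (List K) → T → Prop) (X : Set (Pos K T)) (G : Col T) (s : List K)
    (p : Set (List K)) (j : Bool) : Set K :=
  {i | ∃ r : Set (List K), IsCond r (s ++ [i]) ∧ r ⊆ p ∧ F r (G [] j) ∧ (shift j G, s ++ [i], r) ∉ X}

/-- The failure operator. -/
def Phi (F : Set (List K) → T → Prop) (X : Set (Pos K T)) : Set (Pos K T) :=
  {P | ¬ Valid (P.1 []) ∨ ∃ j, Sm (succs F X P.1 P.2.1 P.2.2 j)}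

omit [PartialOrder T] [WellFoundedLT T] in
lemma succs_anti {X Y : Set (Pos K T)} (h : X ⊆ Y) (G : Col T) (s : List K)
    (p : Set (List K)) (j : Bool) : succs F Y G s p j ⊆ succs F X G s p j := by
  rintro i ⟨r, h1, h2, h3, h4⟩
  exact ⟨r, h1, h2, h3, fun h5 => h4 (h h5)⟩

/-- Positions failing at stage `ξ`. -/
def Fl (F : Set (List K) → T → Prop) (ξ : Ordinal.{0}) : Set (Pos K T) :=
  Phi F {P | ∃ ζ : Set.Iio ξ, P ∈ Fl F ζ.1}
termination_by ξ
decreasing_by exact ζ.2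

/-- Positions failing before stage `ξ`. -/
def FlB (F : Set (List K) → T → Prop) (ξ : Ordinal.{0}) : Set (Pos K T) :=
  {P | ∃ ζ < ξ, P ∈ Fl F ζ}

lemma Fl_eq (F : Set (List K) → T → Prop) (ξ : Ordinal.{0}) : Fl F ξ = Phi F (FlB F ξ) := by
  rw [Fl]
  congr 1
  ext P
  constructor
  · rintro ⟨⟨ζ, hζ⟩, h⟩
    exact ⟨ζ, hζ, h⟩
  · rintro ⟨ζ, hζ, h⟩
    exact ⟨⟨ζ, hζ⟩, h⟩

/-- Positions that never fail. -/
def Real (F : Set (List K) → T → Prop) (G : Col T) (s : List K) (p : Set (List K)) : Prop :=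
  ∀ ξ : Ordinal.{0}, (G, s, p) ∉ Fl F ξ

lemma exists_bound (F : Set (List K) → T → Prop) :
    ∃ ξ : Ordinal.{0}, ∀ P : Pos K T, (∃ ζ, P ∈ Fl F ζ) → P ∈ FlB F ξ := by
  classical
  have hch : ∀ P : Pos K T, ∃ ζ : Ordinal.{0}, (∃ ζ, P ∈ Fl F ζ) → P ∈ Fl F ζ := by
    intro P
    by_cases h : ∃ ζ, P ∈ Fl F ζ
    · obtain ⟨ζ, hζ⟩ := h
      exact ⟨ζ, fun _ => hζ⟩
    · exact ⟨0, fun h' => absurd h' h⟩
  choose ρ hρ using hch
  refine ⟨⨆ P, Order.succ (ρ P), ?_⟩
  intro P hP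
  refine ⟨ρ P, ?_, hρ P hP⟩
  exact (Order.lt_succ _).trans_le (Ordinal.le_iSup (fun P => Order.succ (ρ P)) P)

/-- `Real` is closed under one step. -/
lemma Real.step {G : Col T} {s : List K} {p : Set (List K)} (h : Real F G s p) :
    Valid (G []) ∧ ∀ j, ¬ Sm {i | ∃ r : Set (List K), IsCond r (s ++ [i]) ∧ r ⊆ p ∧
      F r (G [] j) ∧ Real F (shift j G) (s ++ [i]) r} := by
  obtain ⟨ξ, hξ⟩ := exists_bound (K := K) (T := T) F
  have h1 := h ξ
  rw [Fl_eq] at h1
  simp only [Phi, Set.mem_ofPred_eq, not_or, not_not, not_exists] at h1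
  refine ⟨h1.1, ?_⟩
  intro j hsm
  apply h1.2 j
  refine hsm.mono ?_
  rintro i ⟨r, h2, h3, h4, h5⟩
  refine ⟨r, h2, h3, h4, ?_⟩
  intro ζ hζ
  exact h5 (hξ _ ⟨ζ, hζ⟩)

end Pool.Agent.LibNamba
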