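import Mathlib
import Pool.Agent.LibNamba.Defs
import Pool.Agent.LibNamba.Basic
import Pool.Agent.LibNamba.Core

/-!
The diagonal binary system of conditions, the fusion along a real, and the final contradiction.
-/

open Cardinal Ordinal

namespace Pool.Agent.LibNamba

variable {K T : Type} [PartialOrder T] [WellFoundedLT T]
variable {p₀ : Set (List K)} {F : Set (List K) → T → Prop}

omit [PartialOrder T] [WellFoundedLT T] in
/-- Under CH there are at most `ℵ₁` colour functions. -/
lemma mk_col (CH : (𝔠 : Cardinal.{0}) = ℵ_ 1) (hT : #T ≤ ℵ_ 1) : #(Col T) ≤ ℵ_ 1 := by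
  have h1 : #(Bool → T) ≤ ℵ_ 1 := by
    rw [← Cardinal.power_def]
    calc #T ^ #Bool ≤ (𝔠 : Cardinal.{0}) ^ #Bool := Cardinal.power_le_power_right (by rw [CH]; exact hT)
      _ = 𝔠 ^ (2 : Cardinal.{0}) := by simp
      _ ≤ 𝔠 ^ ℵ₀ := Cardinal.power_le_power_left Cardinal.continuum_ne_zero (Cardinal.natCast_lt_aleph0 (n := 2)).le
      _ = 𝔠 := Cardinal.continuum_power_aleph0
      _ = ℵ_ 1 := CH
  have h2 : #(Col T) = #(Bool → T) ^ #(List Bool) := by
    rw [Cardinal.power_def]
  rw [h2]
  calc #(Bool → T) ^ #(List Bool) ≤ (𝔠 : Cardinal.{0}) ^ #(List Bool) :=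
        Cardinal.power_le_power_right (by rw [CH]; exact h1)
    _ ≤ 𝔠 ^ ℵ₀ := Cardinal.power_le_power_left Cardinal.continuum_ne_zero (Cardinal.mk_le_aleph0)
    _ = 𝔠 := Cardinal.continuum_power_aleph0
    _ = ℵ_ 1 := CH

/-- A state is a condition below `p₀` with its stem. -/
structure State (p₀ : Set (List K)) where
  stem : List K
  cond : Set (List K)
  isCond : IsCond cond stem
  le : cond ⊆ p₀

/-- One step of the diagonal system. -/
lemma exists_next (h : NewBranch p₀ F) (CH : (𝔠 : Cardinal.{0}) = ℵ_ 1) (hT : #T ≤ ℵ_ 1) (st : State p₀) :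
    ∃ (x : Bool → T) (nx : Bool → State p₀), Valid x ∧
      ∀ j, ∃ i, (nx j).stem = st.stem ++ [i] ∧ (nx j).cond ⊆ st.cond ∧ F (nx j).cond (x j) ∧
        ∀ (H : Col T) (ξ : Ordinal.{0}),
          Sm (succs F (FlB F ξ) H st.stem st.cond j) →
          (∀ ζ < ξ, (H, st.stem, st.cond) ∉ Fl F ζ) → (H, st.stem, st.cond) ∈ Fl F ξ →
          i ∉ succs F (FlB F ξ) H st.stem st.cond j := by
  classical
  obtain ⟨q, x, hq, hne, hh⟩ := h.split hT st.isCond st.le
  -- the union of the small sets for all colour functions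
  set B : Bool → Col T → Set K := fun j H =>
    {i | ∃ ξ : Ordinal.{0}, Sm (succs F (FlB F ξ) H st.stem st.cond j) ∧
      (∀ ζ < ξ, (H, st.stem, st.cond) ∉ Fl F ζ) ∧ (H, st.stem, st.cond) ∈ Fl F ξ ∧
      i ∈ succs F (FlB F ξ) H st.stem st.cond j} with hB
  have hBs : ∀ j H, Sm (B j H) := by
    intro j H
    by_cases hex : ∃ ξ : Ordinal.{0}, Sm (succs F (FlB F ξ) H st.stem st.cond j) ∧
      (∀ ζ < ξ, (H, st.stem, st.cond) ∉ Fl F ζ) ∧ (H, st.stem, st.cond) ∈ Fl F ξ
    · obtain ⟨ξ, h1, h2, h3⟩ := hex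
      refine h1.mono ?_
      rintro i ⟨ξ', h1', h2', h3', hi⟩
      have : ξ' = ξ := by
        rcases lt_trichotomy ξ' ξ with hlt | heq | hlt
        · exact absurd h3' (h2 ξ' hlt)
        · exact heq
        · exact absurd h3 (h2' ξ hlt)
      rw [this] at hi
      exact hi
    · refine sm_empty.mono ?_
      rintro i ⟨ξ, h1, h2, h3, -⟩
      exact absurd ⟨ξ, h1, h2, h3⟩ hex
  have hBU : ∀ j, Sm (⋃ H, B j H) := fun j => Sm.iUnion (mk_col CH hT) (hBs j)
  have hi : ∀ j, ∃ i, st.stem ++ [i] ∈ q j ∧ i ∉ ⋃ H, B j H := by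
    intro j
    obtain ⟨i, hi, hi'⟩ := exists_notMem_of_not_sm (not_sm_succ (hq j).1) (hBU j)
    exact ⟨i, hi, hi'⟩
  choose i hi using hi
  refine ⟨x, fun j => ⟨st.stem ++ [i j], restr (q j) (st.stem ++ [i j]),
    (hq j).1.restr (hi j).1 (List.prefix_append _ _),
    (restr_subset _ _).trans ((hq j).2.1.trans st.le)⟩, ⟨hne, hh⟩, ?_⟩
  intro j
  refine ⟨i j, rfl, (restr_subset _ _).trans (hq j).2.1, ?_, ?_⟩
  · exact h.mono (q j) _ st.stem (st.stem ++ [i j]) (x j) (hq j).1
      ((hq j).1.restr (hi j).1 (List.prefix_append _ _)) (restr_subset _ _)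
      ((hq j).2.1.trans st.le) (hq j).2.2
  · intro H ξ h1 h2 h3 hmem
    apply (hi j).2
    exact Set.mem_iUnion.2 ⟨H, ξ, h1, h2, h3, hmem⟩

/-- Running the diagonal system. -/
def runSt (nx : State p₀ → Bool → State p₀) : State p₀ → List Bool → State p₀
  | st, [] => st
  | st, j :: σ => runSt nx (nx st j) σ

/-- Some colour function is realised at `p₀`. -/
lemma exists_real (h : NewBranch p₀ F) (CH : (𝔠 : Cardinal.{0}) = ℵ_ 1) (hT : #T ≤ ℵ_ 1) {s₀ : List K}
    (hp₀ : IsCond p₀ s₀) : ∃ G : Col T, Real F G s₀ p₀ := by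
  classical
  choose x nx hv hnx using exists_next h CH hT
  let GG : State p₀ → Col T := fun st σ => x (runSt nx st σ)
  have key : ∀ ξ : Ordinal.{0}, ∀ st : State p₀, (GG st, st.stem, st.cond) ∉ Fl F ξ := by
    intro ξ
    induction ξ using WellFoundedLT.induction with
    | ind ξ ih =>
      intro st hmem
      have hmem' := hmem
      rw [Fl_eq] at hmem'
      rcases hmem' with h1 | ⟨j, h1⟩
      · exact h1 (hv st)
      · obtain ⟨i, h2, h3, h4, h5⟩ := hnx st j
        have h6 := h5 (GG st) ξ h1 (fun ζ hζ => ih ζ hζ st) hmem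
        apply h6
        refine ⟨(nx st j).cond, ?_, h3, h4, ?_⟩
        · rw [← h2]; exact (nx st j).isCond
        · rintro ⟨ζ, hζ, hmemζ⟩
          apply ih ζ hζ (nx st j)
          rw [h2]
          exact hmemζ
  exact ⟨GG ⟨s₀, p₀, hp₀, subset_rfl⟩, fun ξ => key ξ ⟨s₀, p₀, hp₀, subset_rfl⟩⟩

/-! ### Fusion along a real -/

/-- The good successors of a realised position. -/
def succR (F : Set (List K) → T → Prop) (G : Col T) (s : List K) (p : Set (List K)) (j : Bool) :
    Set K :=
  {i | ∃ r : Set (List K), IsCond r (s ++ [i]) ∧ r ⊆ p ∧ F r (G [] j) ∧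
    Real F (shift j G) (s ++ [i]) r}

open Classical in
/-- A chosen condition for each good successor. -/
noncomputable def nextR (F : Set (List K) → T → Prop) (G : Col T) (s : List K) (p : Set (List K))
    (j : Bool) (i : K) : Set (List K) :=
  if h : i ∈ succR F G s p j then h.choose else ∅

lemma nextR_spec {G : Col T} {s : List K} {p : Set (List K)} {j : Bool} {i : K}
    (h : i ∈ succR F G s p j) : IsCond (nextR F G s p j i) (s ++ [i]) ∧ nextR F G s p j i ⊆ p ∧
      F (nextR F G s p j i) (G [] j) ∧ Real F (shift j G) (s ++ [i]) (nextR F G s p j i) := by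
  unfold nextR
  rw [dif_pos h]
  exact h.choose_spec

/-- The nodes (relative to the stem) of the fusion along `η`. -/
def InQ (F : Set (List K) → T → Prop) : (ℕ → Bool) → Col T → List K → Set (List K) → List K → Prop
  | _, _, _, _, [] => True
  | η, G, s, p, i :: u => i ∈ succR F G s p (η 0) ∧
      InQ F (fun n => η (n + 1)) (shift (η 0) G) (s ++ [i]) (nextR F G s p (η 0) i) u

/-- The fusion along `η`. -/
def fus (F : Set (List K) → T → Prop) (η : ℕ → Bool) (G : Col T) (s : List K) (p : Set (List K)) :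
    Set (List K) :=
  {v | v <+: s} ∪ {v | ∃ u, v = s ++ u ∧ InQ F η G s p u}

lemma inQ_down (F : Set (List K) → T → Prop) (η : ℕ → Bool) (G : Col T) (s : List K)
    (p : Set (List K)) (u v : List K) (h : InQ F η G s p u) (hv : v <+: u) : InQ F η G s p v := by
  induction u generalizing η G s p v with
  | nil =>
    rw [List.prefix_nil] at hv
    rw [hv]; exact h
  | cons i u ih =>
    cases v with
    | nil => trivial
    | cons k v =>
      obtain ⟨rfl, hv'⟩ := List.cons_prefix_cons.1 hv
      exact ⟨h.1, ih _ _ _ _ _ h.2 hv'⟩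

lemma inQ_big (η : ℕ → Bool) (G : Col T) (s : List K)
    (p : Set (List K)) (hR : Real F G s p) (u : List K) (h : InQ F η G s p u) :
    ¬ Sm {k | InQ F η G s p (u ++ [k])} := by
  induction u generalizing η G s p with
  | nil =>
    intro hsm
    apply hR.step.2 (η 0)
    refine hsm.mono ?_
    intro k hk
    exact ⟨hk, trivial⟩
  | cons i u ih =>
    obtain ⟨h1, h2⟩ := h
    intro hsm
    apply ih _ _ _ _ (nextR_spec h1).2.2.2 h2
    refine hsm.mono ?_
    intro k hk
    exact ⟨h1, hk⟩

lemma fus_cond (η : ℕ → Bool) (G : Col T) (s : List K)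
    (p : Set (List K)) (hR : Real F G s p) : IsCond (fus F η G s p) s where
  mem := Or.inl (List.prefix_refl s)
  down := by
    rintro t (ht | ⟨u, rfl, hu⟩) v hv
    · exact Or.inl (hv.trans ht)
    · rcases List.prefix_or_prefix_of_prefix hv (List.prefix_append s u) with h1 | h1
      · exact Or.inl h1
      · obtain ⟨w, rfl⟩ := h1
        right
        refine ⟨w, rfl, inQ_down F η G s p u w hu ?_⟩
        rwa [List.prefix_append_right_inj] at hv
  comp := by
    rintro t (ht | ⟨u, rfl, hu⟩)
    · exact Or.inl ht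
    · exact Or.inr (List.prefix_append _ _)
  big := by
    rintro t ht hst hsm
    have : ∃ u, t = s ++ u ∧ InQ F η G s p u := by
      rcases ht with ht | ht
      · refine ⟨[], ?_, trivial⟩
        rw [List.append_nil]
        exact ht.eq_of_length (le_antisymm ht.length_le hst.length_le)
      · exact ht
    obtain ⟨u, rfl, hu⟩ := this
    apply inQ_big η G s p hR u hu
    refine hsm.mono ?_
    intro k hk
    exact Or.inr ⟨u ++ [k], by simp, hk⟩

lemma fus_eq_amalg (η : ℕ → Bool) (G : Col T) (s : List K) (p : Set (List K)) :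
    fus F η G s p = amalg s (succR F G s p (η 0))
      (fun i => fus F (fun n => η (n + 1)) (shift (η 0) G) (s ++ [i]) (nextR F G s p (η 0) i)) := by
  ext v
  constructor
  · rintro (hv | ⟨u, rfl, hu⟩)
    · exact Or.inl hv
    · cases u with
      | nil => left; simp
      | cons i u =>
        right
        refine ⟨i, hu.1, Or.inr ⟨u, by simp, hu.2⟩⟩
  · rintro (hv | ⟨i, hi, hv | ⟨u, rfl, hu⟩⟩)
    · exact Or.inl hv
    · rcases List.prefix_concat_iff.1 hv with h1 | h1
      · exact Or.inr ⟨[i], h1, hi, trivial⟩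
      · exact Or.inl h1
    · exact Or.inr ⟨i :: u, by simp, hi, hu⟩

lemma inQ_sub (η : ℕ → Bool) (G : Col T) (s : List K) (p : Set (List K)) (hp : IsCond p s)
    (u : List K) (h : InQ F η G s p u) : s ++ u ∈ p := by
  induction u generalizing η G s p with
  | nil => simpa using hp.mem
  | cons i u ih =>
    have h1 := nextR_spec h.1
    have h2 := ih _ _ _ _ h1.1 h.2
    have h3 := h1.2.1 h2
    simpa using h3

lemma fus_sub (η : ℕ → Bool) (G : Col T) (s : List K) (p : Set (List K)) (hp : IsCond p s) :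
    fus F η G s p ⊆ p := by
  rintro v (hv | ⟨u, rfl, hu⟩)
  · exact hp.down s hp.mem v hv
  · exact inQ_sub η G s p hp u hu

/-- The first `k` values of `η`. -/
def path : (ℕ → Bool) → ℕ → List Bool
  | _, 0 => []
  | η, k + 1 => η 0 :: path (fun n => η (n + 1)) k

lemma fus_forces (h : NewBranch p₀ F) (k : ℕ) (η : ℕ → Bool) (G : Col T) (s : List K)
    (p : Set (List K)) (hp : IsCond p s) (hpp : p ⊆ p₀) (hR : Real F G s p) :
    F (fus F η G s p) (G (path η k) (η k)) := by
  induction k generalizing η G s p with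
  | zero =>
    have hsub : fus F η G s p ⊆ p₀ := (fus_sub η G s p hp).trans hpp
    rw [fus_eq_amalg] at hsub ⊢
    refine h.amalg_forces (hR.step.2 (η 0)) ?_ hsub ?_
    · intro i hi
      exact fus_cond _ _ _ _ (nextR_spec hi).2.2.2
    · intro i hi
      have h1 := nextR_spec hi
      exact h.mono (nextR F G s p (η 0) i) _ (s ++ [i]) (s ++ [i]) _ h1.1
        (fus_cond _ _ _ _ h1.2.2.2) (fus_sub _ _ _ _ h1.1) (h1.2.1.trans hpp) h1.2.2.1
  | succ k ih =>
    have hsub : fus F η G s p ⊆ p₀ := (fus_sub η G s p hp).trans hpp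
    rw [fus_eq_amalg] at hsub ⊢
    refine h.amalg_forces (hR.step.2 (η 0)) ?_ hsub ?_
    · intro i hi
      exact fus_cond _ _ _ _ (nextR_spec hi).2.2.2
    · intro i hi
      have h1 := nextR_spec hi
      exact ih (fun n => η (n + 1)) (shift (η 0) G) (s ++ [i]) (nextR F G s p (η 0) i) h1.1
        (h1.2.1.trans hpp) h1.2.2.2

lemma real_valid (σ : List Bool) (G : Col T) (s : List K) (p : Set (List K))
    (hR : Real F G s p) : Valid (G σ) := by
  induction σ generalizing G s p with
  | nil => exact hR.step.1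
  | cons j σ ih =>
    obtain ⟨i, hi⟩ := nonempty_of_not_sm (hR.step.2 j)
    obtain ⟨r, -, -, -, hr⟩ := hi
    exact ih (shift j G) _ _ hr

lemma path_eq_of_agree (k : ℕ) (η η' : ℕ → Bool) (h : ∀ n < k, η n = η' n) :
    path η k = path η' k := by
  induction k generalizing η η' with
  | zero => rfl
  | succ k ih =>
    simp only [path]
    rw [h 0 (Nat.succ_pos k), ih _ _ (fun n hn => h (n + 1) (by omega))]

/-- There is no new branch. -/
theorem no_newBranch (CH : (𝔠 : Cardinal.{0}) = ℵ_ 1) (hT : IsOmegaOneTree T) {s₀ : List K}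
    (hp₀ : IsCond p₀ s₀) (h : NewBranch p₀ F) : False := by
  classical
  obtain ⟨G, hR⟩ := exists_real h CH hT.mk_le hp₀
  -- a level above all the colours
  set δ : Ordinal.{0} := ⨆ P : List Bool × Bool, height (G P.1 P.2) with hδ
  have hδlt : δ < ω_ 1 := Ordinal.iSup_lt_omega_one (fun P => hT.height_lt _)
  have hle : ∀ σ j, height (G σ j) ≤ δ := fun σ j =>
    Ordinal.le_iSup (fun P : List Bool × Bool => height (G P.1 P.2)) (σ, j)
  have hch : ∀ η : ℕ → Bool, ∃ y : T, height y = δ ∧ ∀ k, G (path η k) (η k) ≤ y := by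
    intro η
    obtain ⟨r, y, hr, hrq, hy, hF⟩ := h.decide hT.mk_le (fus_cond η G s₀ p₀ hR)
      (fus_sub η G s₀ p₀ hp₀) hδlt
    refine ⟨y, hy, ?_⟩
    intro k
    have h1 : F (fus F η G s₀ p₀) (G (path η k) (η k)) := fus_forces h k η G s₀ p₀ hp₀ subset_rfl hR
    have h2 : F r (G (path η k) (η k)) := h.mono _ r s₀ s₀ _ (fus_cond η G s₀ p₀ hR) hr hrq
      (fus_sub η G s₀ p₀ hp₀) h1
    rcases h.chain r s₀ _ _ hr (hrq.trans (fus_sub η G s₀ p₀ hp₀)) h2 hF with h3 | h3
    · exact h3
    · have h4 := height_le_of_le h3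
      rw [hy] at h4
      exact (eq_of_comparable (Or.inr h3) (le_antisymm (by rw [hy]; exact hle _ _)
        (by rw [hy]; exact h4))).le
  choose y hy hyle using hch
  have hinj : Function.Injective y := by
    intro η η' heq
    by_contra hne
    have hex : ∃ n, η n ≠ η' n := by
      by_contra hcon
      push Not at hcon
      exact hne (funext hcon)
    set k := Nat.find hex with hk
    have hk1 : η k ≠ η' k := Nat.find_spec hex
    have hk2 : ∀ n < k, η n = η' n := fun n hn => by
      have := Nat.find_min hex hn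
      simpa using this
    have hp := path_eq_of_agree k η η' hk2
    have h1 := hyle η k
    have h2 := hyle η' k
    rw [← heq, ← hp] at h2
    have hcmp := hT.pred_chain _ _ _ h1 h2
    have hval := real_valid (path η k) G s₀ p₀ hR
    have hh : height (G (path η k) (η k)) = height (G (path η k) (η' k)) := by
      cases hη : η k <;> cases hη' : η' k
      · rfl
      · exact hval.2
      · exact hval.2.symm
      · rfl
    have heq2 := eq_of_comparable hcmp hh
    have hne2 := hval.1
    apply hne2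
    cases hη : η k <;> cases hη' : η' k
    · exact absurd (hη.trans hη'.symm) hk1
    · rw [hη, hη'] at heq2; exact heq2
    · rw [hη, hη'] at heq2; exact heq2.symm
    · exact absurd (hη.trans hη'.symm) hk1
  have hcount : Countable (ℕ → Bool) := by
    have h1 := hT.level_countable δ
    have : Countable {x : T | height x = δ} := h1.to_subtype
    exact Function.Injective.countable (f := fun η => (⟨y η, hy η⟩ : {x : T | height x = δ}))
      (fun a b hab => hinj (by simpa using hab))
  have h3 : #(ℕ → Bool) ≤ ℵ₀ := Cardinal.mk_le_aleph0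
  have h2 : #(ℕ → Bool) = 𝔠 := by
    rw [← Cardinal.power_def]
    simp
  rw [h2] at h3
  exact absurd Cardinal.aleph0_lt_continuum (not_lt.2 h3)

end Pool.Agent.LibNamba
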