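import Mathlib
import Pool.Agent.LibNamba.Defs
import Pool.Agent.LibNamba.Basic
import Pool.Agent.LibNamba.Core
import Pool.Agent.LibNamba.Main

/-!
Passing from names and the forcing relation to the internal notion, and the theorem.
-/

open Cardinal Ordinal

namespace Pool.Agent.LibNamba

section General

variable {P T : Type} [Preorder P]

lemma ForcesMem.mono {p q : P} {x : T} {τ : Set (T × P)} (h : ForcesMem p x τ) (hq : q ≤ p) :
    ForcesMem q x τ := fun r hr => h r (hr.trans hq)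

lemma forcesMem_of_dense {p : P} {x : T} {τ : Set (T × P)}
    (h : ∀ q ≤ p, ∃ r ≤ q, ForcesMem r x τ) : ForcesMem p x τ := by
  intro q hq
  obtain ⟨r, hr, hF⟩ := h q hq
  obtain ⟨r', hr', u, hu, hu'⟩ := hF r le_rfl
  exact ⟨r', hr'.trans hr, u, hu, hu'⟩

end General

lemma isCond_iff {p : Set (List OmegaTwo)} {s : List OmegaTwo} :
    IsLaverNamba p s ↔ IsCond p s := by
  have h2 : (ℵ_ 2 : Cardinal.{0}) = Order.succ (ℵ_ 1) := by
    rw [Cardinal.succ_aleph, one_add_one_eq_two]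
  have key : ∀ A : Set OmegaTwo, #A = ℵ_ 2 ↔ ¬ Sm A := by
    intro A
    have hle : #A ≤ ℵ_ 2 := by
      refine (Cardinal.mk_set_le A).trans ?_
      rw [Cardinal.mk_toType]
      simp
    unfold Sm
    rw [not_le, ← Order.succ_le_iff, ← h2]
    exact ⟨fun h => h.ge, fun h => le_antisymm hle h⟩
  constructor
  · rintro ⟨h1, h2, h3, h4⟩
    exact ⟨h1, h2, h3, fun t ht hst => (key _).1 (h4 t ht hst)⟩
  · rintro ⟨h1, h2, h3, h4⟩
    exact ⟨h1, h2, h3, fun t ht hst => (key _).2 (h4 t ht hst)⟩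

/-- Under CH the Laver-like Namba forcing adds no cofinal branch to trees of height `ω₁` with
countable levels. -/
theorem laverNamba_no_branch (CH : (𝔠 : Cardinal.{0}) = ℵ_ 1) (T : Type) [PartialOrder T]
    [WellFoundedLT T] (hT : IsOmegaOneTree T) : ¬ AddsCofinalBranch LaverNamba T := by
  rintro ⟨⟨p₀, s₀, hp₀⟩, τ, hτ⟩
  let F : Set (List OmegaTwo) → T → Prop := fun p x =>
    ∃ h : (∃ s, IsLaverNamba p s), ForcesMem (⟨p, h⟩ : LaverNamba) x τ
  have hF : NewBranch p₀ F := by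
    constructor
    · rintro p q s t x hp hq hqp hpp ⟨h, hx⟩
      exact ⟨⟨t, isCond_iff.2 hq⟩, hx.mono (by exact hqp)⟩
    · intro p s x hp hpp hd
      refine ⟨⟨s, isCond_iff.2 hp⟩, ?_⟩
      apply forcesMem_of_dense
      rintro ⟨q, t, hq⟩ hqp
      obtain ⟨r, u, hr, hrq, h, hx⟩ := hd q t (isCond_iff.1 hq) hqp
      exact ⟨⟨r, h⟩, hrq, hx⟩
    · rintro p s x y hp hpp ⟨h, hx⟩ ⟨h', hy⟩
      exact hτ.chain ⟨p, h⟩ hpp x y hx hy
    · rintro p s x y hp hpp ⟨h, hx⟩ hyx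
      exact ⟨h, hτ.lower ⟨p, h⟩ hpp x y hx hyx⟩
    · intro p s α hp hpp hα
      obtain ⟨⟨q, t, hq⟩, hqp, x, hx, hF⟩ := hτ.cofinal ⟨p, s, isCond_iff.2 hp⟩ hpp α hα
      exact ⟨q, t, x, isCond_iff.1 hq, hqp, hx, ⟨t, hq⟩, hF⟩
    · intro b hb p s hp hpp
      obtain ⟨⟨q, t, hq⟩, hqp, x, hx⟩ := hτ.new b ⟨p, s, isCond_iff.2 hp⟩ hpp
      have hqp' : q ⊆ p := hqp
      rcases hx with ⟨hxb, hx⟩ | ⟨hxb, hx⟩
      · obtain ⟨⟨r, u, hr⟩, hrq, y, hy, hF⟩ := hτ.cofinal ⟨q, t, hq⟩ (hqp'.trans hpp) (height x)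
          (hT.height_lt x)
        have hrq' : r ⊆ q := hrq
        refine ⟨r, u, y, isCond_iff.1 hr, hrq'.trans hqp', ?_, ⟨u, hr⟩, hF⟩
        intro hyb
        have hxy : x = y := eq_of_comparable (hb.chain x hxb y hyb) hy.symm
        rw [← hxy] at hF
        exact hx ⟨r, u, hr⟩ hrq hF
      · exact ⟨q, t, x, isCond_iff.1 hq, hqp', hxb, ⟨t, hq⟩, hx⟩
  exact no_newBranch CH hT (isCond_iff.1 hp₀) hF

end Pool.Agent.LibNamba
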